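import Pool.Agent.H693.SR.Fin
import Pool.Agent.H299.SR.K
import Pool.Agent.H227.SR.A
import Pool.Agent.H48.SR.D
import Pool.Agent.H93.SR.C
import Pool.Agent.H874.SR.B

set_option autoImplicit false

/-!
# Primitive roots modulo EVERY prime from `(1 / (4 √e) + ε) log₂ p` random bits

For every `B` there is ONE deterministic polynomial-time algorithm which computes from a prime `p`
(without the factorisation of `p - 1`) and a number `u` a list `F p u` of `(size p) ^ C` numbers with
the following property. Let `U ≤ p`, `U ≥ p ^ (1 / (4 √e) + ε)` (`1 / (4 √e) = 0.1516…`). For EVERY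
prime `p ≥ p₀(ε)`, for all but a fraction `(size p) ^ (-B)` of the seeds `u < U` all but a fraction
`(size p) ^ (-B)` of the entries of `F p u` are primitive roots modulo `p`.

So `0.1516… log₂ p` random bits (in the place of the `log₂ p` random bits of one random residue)
are enough to find a primitive root with error `(log p) ^ (-B)`, for every prime and without knowing or
testing any factor of `p - 1`. Under conditions on the small prime factors `l` of `p - 1` (one of
`-1, 1, 2, …, (size p) ^ (B + 2)` is not an `l`-th power) the same algorithm needs still fewer bits: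
`0.1283… log₂ p` bits for all `p ≢ 1` modulo `8`, and `ε log₂ p` bits if the condition holds for all
primes `l < K(ε)`.

Proof. (A) For every prime `l ∣ p - 1` the sum of `1 / q` over the primes `q ≤ y = p ^ (θ + ε / 2)`
which are no `l`-th powers is at least a constant `c` (Burgess + Vinogradov's trick, counted).
(B) So the nonresidues have density at least `c / 8` in `[1, 2 ^ i]` for SOME `2 ^ i ≤ U` (Turán and
Cauchy-Schwarz, no information on which `i`). (C) The list of seeds contains for all `r` and `K` the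
numbers `⌊v / 2 ^ j⌋`, `v` the number with the base `r` digits `u_i + b a ^ i`, `i < K`, `a, b < r`. The
points `b (1, a, a², …)` have small bias in `(ℤ/r)^K`, so for a prime `r ≥ (size p) ^ (B + 2)`
almost every `u` reaches every set of positive density. (D) A list of generators is turned into a
list of elements almost all of which are generators as in the starting results.
-/

namespace Pool.Agent.Results.MP_18a8a6_lc.FewRandomBits

open Finset

/-- `F` is computable in polynomial time: some function on bit strings computed by a Turing machine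
(Mathlib's `TM2ComputableInPolyTime`) in polynomially many steps sends the pair (coded as a bit
string) of the binary digits of `p` and of `u` to the code of the list `F p u`. -/
def PolyTimeList₂ (F : ℕ → ℕ → List ℕ) : Prop :=
  ∃ f : List Bool → List Bool, NPC.PolyTime f ∧
    ∀ p u : ℕ, f (NPC.pairBits (Nat.bits p) (Nat.bits u)) = NPC.bits (F p u)

/-- `g` is a primitive root modulo `p` -/
def IsPrimRoot (p g : ℕ) : Prop := orderOf (g : ZMod p) = p - 1

open Classical in
/-- all but a fraction `(size p) ^ (-B)` of the entries of the list `s` are primitive roots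
modulo `p` -/
def MostlyPrimRoots (B p : ℕ) (s : List ℕ) : Prop :=
  p.size ^ B * #{i ∈ range s.length | ¬ IsPrimRoot p (s.getD i 0)} ≤ s.length

open Classical in
/-- all but a fraction `(size p) ^ (-B)` of the seeds `u < U` give a list in which all but a
fraction `(size p) ^ (-B)` of the entries are primitive roots modulo `p` -/
def FewBadSeeds (F : ℕ → ℕ → List ℕ) (B p U : ℕ) : Prop :=
  p.size ^ B * #{u ∈ range U | ¬ MostlyPrimRoots B p (F p u)} ≤ U

/-- one of `-1, 1, 2, …, (size p) ^ D` is not an `l`-th power modulo `p` -/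
def SmallNonPower (p D l : ℕ) : Prop :=
  ∃ x : ZMod p, (x = -1 ∨ ∃ i : ℕ, 1 ≤ i ∧ i ≤ p.size ^ D ∧ x = i) ∧ ¬ ∃ c : ZMod p, c ^ l = x

theorem small_two {p D : ℕ} (hp : p.Prime) (hD : 1 ≤ D) (hp2 : p ≠ 2) (h8 : p % 8 ≠ 1) :
    SmallNonPower p D 2 := by
  have : Fact p.Prime := ⟨hp⟩
  have hodd : p % 2 = 1 := hp.eq_two_or_odd.resolve_left hp2
  by_cases h4 : p % 4 = 3
  · refine ⟨-1, Or.inl rfl, ?_⟩
    rintro ⟨c, hc⟩
    have h1 := ZMod.exists_sq_eq_neg_one_iff (p := p)
    have h2 : IsSquare (-1 : ZMod p) := ⟨c, by rw [← hc, pow_two]⟩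
    exact (h1.1 h2) h4
  · refine ⟨((2 : ℕ) : ZMod p), Or.inr ⟨2, by norm_num, ?_, rfl⟩, ?_⟩
    · have h5 : 2 ≤ p.size := Nat.lt_size.2 (by have := hp.two_le; omega)
      calc 2 ≤ p.size ^ 1 := by rw [pow_one]; exact h5
        _ ≤ p.size ^ D := Nat.pow_le_pow_right (by omega) hD
    rintro ⟨c, hc⟩
    have h1 := ZMod.exists_sq_eq_two_iff (p := p) hp2
    have h2 : IsSquare (2 : ZMod p) := ⟨c, by rw [← pow_two, hc]; norm_num⟩
    have h3 := h1.1 h2
    omega

theorem result (B : ℕ) :
    ∃ (C : ℕ) (F : ℕ → ℕ → List ℕ), PolyTimeList₂ F ∧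
      (∀ p u : ℕ, (F p u).length = p.size ^ C) ∧
      ∀ ε : ℝ, 0 < ε →
        (∃ p₀ : ℕ, ∀ p : ℕ, p₀ ≤ p → p.Prime → ∀ U : ℕ, U ≤ p →
          (p : ℝ) ^ (1 / (4 * Real.exp (1 / 2)) + ε) ≤ U → FewBadSeeds F B p U) ∧
        (∃ p₀ : ℕ, ∀ p : ℕ, p₀ ≤ p → p.Prime → p % 8 ≠ 1 → ∀ U : ℕ, U ≤ p →
          (p : ℝ) ^ (1 / (4 * Real.exp (2 / 3)) + ε) ≤ U → FewBadSeeds F B p U) ∧
        (∀ L : ℕ, 2 ≤ L → ∃ p₀ : ℕ, ∀ p : ℕ, p₀ ≤ p → p.Prime →
          (∀ l : ℕ, l.Prime → l < L → l ∣ p - 1 → SmallNonPower p (B + 2) l) → ∀ U : ℕ, U ≤ p →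
          (p : ℝ) ^ (1 / (4 * Real.exp (1 - 1 / (L : ℝ))) + ε) ≤ U → FewBadSeeds F B p U) ∧
        (∃ K p₀ : ℕ, ∀ p : ℕ, p₀ ≤ p → p.Prime →
          (∀ l : ℕ, l.Prime → l < K → l ∣ p - 1 → SmallNonPower p (B + 2) l) → ∀ U : ℕ, U ≤ p →
          (p : ℝ) ^ ε ≤ U → FewBadSeeds F B p U) := by
  classical
  have hB := Pool.Agent.H874.SR.t_B
  have hD := H48.SR.t_D H93.SR.t_C
  have hA := H227.SR.t_A
  have hK := H299.SR.t_K
  refine ⟨3 * (B + 2) + 4 + 0 + B + 2, H693SR.alg B, H693SR.poly_alg B, H693SR.length_alg B,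
    fun ε hε => ⟨?_, ?_, fun L hL => ?_, ?_⟩⟩
  · obtain ⟨p₀, h⟩ := H693SR.main_L hB hD hA B 2 le_rfl ε hε
    refine ⟨p₀, fun p hp hpp U hU hpU => ?_⟩
    refine h p hp hpp (fun l hl hl2 _ => ?_) U hU ?_
    · have := hl.two_le
      omega
    · have h2 : (1 - 1 / ((2 : ℕ) : ℝ)) = 1 / 2 := by norm_num
      rw [h2]
      exact hpU
  · obtain ⟨p₀, h⟩ := H693SR.main_L hB hD hA B 3 (by norm_num) ε hε
    refine ⟨max p₀ 3, fun p hp hpp h8 U hU hpU => ?_⟩
    refine h p ((le_max_left _ _).trans hp) hpp (fun l hl hl3 _ => ?_) U hU ?_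
    · have h2 : l = 2 := by have := hl.two_le; omega
      subst h2
      refine small_two hpp (by omega) ?_ h8
      have := (le_max_right p₀ 3).trans hp
      omega
    · have h2 : (1 - 1 / ((3 : ℕ) : ℝ)) = 2 / 3 := by norm_num
      rw [h2]
      exact hpU
  · exact H693SR.main_L hB hD hA B L hL ε hε
  · exact H693SR.main_K hB hD hK B ε hε

end Pool.Agent.Results.MP_18a8a6_lc.FewRandomBits
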