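import Pool.Agent.H563.TW.UnitThin
import Pool.Graph.R_pool_sql_team_seeded_ab47071d.TH415.UL.LstPoly
import Pool.Graph.R_seed8.NPC.Dec

/-!
# One thin fixed set of primes which generates the units modulo almost all primes

Let `a ≥ 2`.  There are a constant `C` and ONE fixed set `B` of prime numbers with at most `C y ^ (1 / a)` elements up
to `y`, for all `y ≥ 1`, such that for ALL real `A ≥ a` and every `ε > 0` the following holds for all primes `p ≤ x`
with at most `K x ^ (2 / A + ε)` exceptions (for all `x ≥ 1`): the group `(ℤ/p)ˣ` is generated by the residue classes of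
the `b ∈ B` with `b ≤ 2 (log p) ^ A`.  There are only `O((log p) ^ (A / a))` such `b`, and for `A = a` only `O(log p)`.

Together with the (polynomial-time) algorithm of the library, which makes from a list of generators of `(ℤ/p)ˣ` a list
of candidates: for every `c` there is a polynomial-time computable function `F` such that for every prime `p` which is
not exceptional, if `l` is the list of these `b`, the list `F l p` has `n ^ k` entries, `n` the number of the binary
digits of `p`, and all but a fraction `n ^ (-c)` of them are primitive roots modulo `p`.  The factorisation of `p - 1`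
is not used.

Method: the multiplicative large sieve for the powers of the sums `∑ χ(q)` over the primes of the dyadic interval
`(T, 2 T]`, `T` about `(log p) ^ A`: if all these sums, `χ` modulo `p` nontrivial, are at most one quarter of the number
of the primes then a quarter of the primes is outside of every given proper subgroup.  The set `B` is chosen block by
block, one prime after the other, such that the sum over all `p` of the block of the index of the subgroup generated so
far decreases by a constant factor in each step.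
-/

set_option autoImplicit false

namespace Pool.Agent.Results.MP_18a8a6_lc.ThinGenerators

open Finset
open scoped Classical

/-- The group `(ℤ/p)ˣ` is generated by the residue classes of the `b ∈ B` with `b ≤ 2 (log p) ^ A`. -/
def Generates (B : Set ℕ) (A : ℝ) (p : ℕ) : Prop :=
  Subgroup.closure {u : (ZMod p)ˣ | ∃ b ∈ B, (b : ℝ) ≤ 2 * (Real.log p) ^ A ∧ (u : ZMod p) = (b : ZMod p)} = ⊤

/-- The residue class of `g` is a primitive root modulo `p`. -/
def IsPrimRoot (p g : ℕ) : Prop := orderOf (g : ZMod p) = p - 1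

/-- `F` is computable in polynomial time: some function on bit strings computed by a Turing machine (Mathlib's
`TM2ComputableInPolyTime`) in polynomially many steps sends the code of the pair `(l, p)` to the code of the list
`F l p`. -/
def PolyTime (F : List ℕ → ℕ → List ℕ) : Prop :=
  ∃ f : List Bool → List Bool, NPC.PolyTime f ∧ ∀ (l : List ℕ) (p : ℕ), f (NPC.bits (l, p)) = NPC.bits (F l p)

theorem prim_of_gen {p g : ℕ} (hp : p.Prime) (h : TH415.UL.Gn p ⊤ g) : IsPrimRoot p g := by
  have : Fact p.Prime := ⟨hp⟩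
  obtain ⟨u, hu1, hu2⟩ := h
  unfold IsPrimRoot
  rw [← hu1, orderOf_units, ← Nat.card_zpowers, hu2, Subgroup.card_top,
    Nat.card_eq_fintype_card, ZMod.card_units]

theorem poly (k : ℕ) : PolyTime (fun l p => TH415.UL.candsL k l p) := by
  have hg : NPC.Poly (fun q : List Bool × (List ℕ × ℕ) => TH415.UL.candsL k q.2.1 q.2.2) :=
    NPC.TH415UL.poly_candsL k (NPC.Poly.snd (NPC.Poly.snd NPC.Poly.id)) (NPC.Poly.fst (NPC.Poly.snd NPC.Poly.id))
  have h := NPC.Poly.optCases (o := NPC.unbits (List ℕ × ℕ)) (g := fun _ : List Bool => ([] : List ℕ))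
    (h := fun (_ : List Bool) (z : List ℕ × ℕ) => TH415.UL.candsL k z.1 z.2) NPC.poly_unbits (NPC.Poly.const _) hg
  refine ⟨_, NPC.polyTime_bits h, fun l p => ?_⟩
  simp only [NPC.unbits_bits]

/-- the list of the small elements of `B` is short -/
theorem length_le (a : ℝ) (ha : 2 ≤ a) (C : ℝ) (B : Set ℕ)
    (hB : ∀ y : ℕ, 1 ≤ y → ({b | b ∈ B ∧ b ≤ y}.ncard : ℝ) ≤ C * (y : ℝ) ^ (1 / a)) (A : ℝ) (hA : a ≤ A) :
    ∃ E : ℕ, ∀ p : ℕ, p.Prime → ∀ l : List ℕ, l.Nodup → (∀ b, b ∈ l ↔ b ∈ B ∧ (b : ℝ) ≤ 2 * (Real.log p) ^ A) →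
      l.length ≤ p.size ^ E := by
  have ha0 : 0 < a := by linarith
  have hA0 : 0 < A := by linarith
  have hC0 : 0 ≤ C := by
    have h1 := hB 1 le_rfl
    have h2 : (0 : ℝ) ≤ ({b | b ∈ B ∧ b ≤ 1}.ncard : ℝ) := by positivity
    rw [Nat.cast_one, Real.one_rpow, mul_one] at h1
    linarith
  obtain ⟨m, hm⟩ := pow_unbounded_of_one_lt (2 * C) (show (1 : ℝ) < 2 by norm_num)
  refine ⟨⌈A / a⌉₊ + m, fun p hp l hl hmem => ?_⟩
  have hsz : 2 ≤ p.size := by
    have := Nat.lt_size.2 (show 2 ^ 1 ≤ p from hp.two_le)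
    omega
  have hszr : (2 : ℝ) ≤ p.size := by exact_mod_cast hsz
  have hp1 : (1 : ℝ) < p := by exact_mod_cast hp.one_lt
  have hlp0 : 0 < Real.log p := Real.log_pos hp1
  have hlp : Real.log p ≤ p.size := by
    have h1 : (p : ℝ) < 2 ^ p.size := by exact_mod_cast Nat.lt_size_self p
    have h2 := Real.log_le_log (by linarith) h1.le
    rw [Real.log_pow] at h2
    have := Real.log_two_lt_d9
    nlinarith
  obtain ⟨y, hy⟩ : ∃ y : ℕ, y = max 1 ⌊2 * (Real.log p) ^ A⌋₊ := ⟨_, rfl⟩
  have hylist : l.length ≤ {b | b ∈ B ∧ b ≤ y}.ncard := by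
    rw [← List.toFinset_card_of_nodup hl, ← Set.ncard_coe_finset]
    apply Set.ncard_le_ncard
    · intro b hb
      rw [mem_coe, List.mem_toFinset, hmem] at hb
      refine ⟨hb.1, ?_⟩
      rw [hy]
      exact (Nat.le_floor hb.2).trans (le_max_right _ _)
    · apply Set.Finite.subset (Set.finite_Iic y)
      rintro b ⟨_, hb⟩
      exact hb
  have hylow : (y : ℝ) ≤ 2 * (p.size : ℝ) ^ A := by
    rw [hy, Nat.cast_max]
    apply max_le
    · have h1 : (1 : ℝ) ≤ (p.size : ℝ) ^ A := Real.one_le_rpow (by linarith) hA0.le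
      push_cast
      linarith
    · refine (Nat.floor_le (by positivity)).trans ?_
      have := Real.rpow_le_rpow hlp0.le hlp hA0.le
      linarith
  have h1 : (l.length : ℝ) ≤ C * (y : ℝ) ^ (1 / a) := by
    refine le_trans ?_ (hB y (by rw [hy]; exact le_max_left _ _))
    exact_mod_cast hylist
  have h2 : (y : ℝ) ^ (1 / a) ≤ 2 * (p.size : ℝ) ^ (A / a) := by
    calc (y : ℝ) ^ (1 / a) ≤ (2 * (p.size : ℝ) ^ A) ^ (1 / a) :=
          Real.rpow_le_rpow (by positivity) hylow (by positivity)
      _ = (2 : ℝ) ^ (1 / a) * (p.size : ℝ) ^ (A / a) := by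
          rw [Real.mul_rpow (by norm_num) (by positivity), ← Real.rpow_mul (by positivity)]
          congr 2
          ring
      _ ≤ 2 * (p.size : ℝ) ^ (A / a) := by
          apply mul_le_mul_of_nonneg_right _ (by positivity)
          calc (2 : ℝ) ^ (1 / a) ≤ 2 ^ (1 : ℝ) := by
                apply Real.rpow_le_rpow_of_exponent_le (by norm_num)
                rw [div_le_one ha0]
                linarith
            _ = 2 := Real.rpow_one 2
  have h3 : (p.size : ℝ) ^ (A / a) ≤ (p.size : ℝ) ^ ⌈A / a⌉₊ := by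
    rw [← Real.rpow_natCast]
    exact Real.rpow_le_rpow_of_exponent_le (by linarith) (Nat.le_ceil _)
  have h4 : 2 * C ≤ (p.size : ℝ) ^ m := by
    refine hm.le.trans ?_
    exact pow_le_pow_left₀ (by norm_num) hszr m
  have h5 : (l.length : ℝ) ≤ (p.size : ℝ) ^ (⌈A / a⌉₊ + m) := by
    calc (l.length : ℝ) ≤ C * (y : ℝ) ^ (1 / a) := h1
      _ ≤ C * (2 * (p.size : ℝ) ^ (A / a)) := mul_le_mul_of_nonneg_left h2 hC0
      _ = (2 * C) * (p.size : ℝ) ^ (A / a) := by ring
      _ ≤ (p.size : ℝ) ^ m * (p.size : ℝ) ^ ⌈A / a⌉₊ := by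
          apply mul_le_mul h4 h3 (by positivity) (by positivity)
      _ = _ := by rw [pow_add]; ring
  exact_mod_cast h5

/-- One thin set `B` of primes: for all real `A ≥ a` and `ε > 0`, for all primes `p ≤ x` but `K x ^ (2 / A + ε)` the
elements of `B` up to `2 (log p) ^ A` generate `(ℤ/p)ˣ`; and then a polynomial-time algorithm which gets `p` and these
elements of `B` finds a list of `(size p) ^ k` numbers all of which but a fraction `(size p) ^ (-c)` are primitive
roots modulo `p`. -/
theorem result (a : ℝ) (ha : 2 ≤ a) : ∃ (C : ℝ) (B : Set ℕ), (∀ b ∈ B, b.Prime) ∧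
    (∀ y : ℕ, 1 ≤ y → ({b | b ∈ B ∧ b ≤ y}.ncard : ℝ) ≤ C * (y : ℝ) ^ (1 / a)) ∧
    ∀ A : ℝ, a ≤ A →
      (∀ ε : ℝ, 0 < ε → ∃ K : ℝ, ∀ x : ℕ, 1 ≤ x →
        (#{p ∈ Icc 1 x | p.Prime ∧ ¬ Generates B A p} : ℝ) ≤ K * (x : ℝ) ^ (2 / A + ε)) ∧
      ∀ c : ℕ, ∃ (k : ℕ) (F : List ℕ → ℕ → List ℕ), PolyTime F ∧ (∀ l p, (F l p).length = p.size ^ k) ∧
        ∀ p : ℕ, p.Prime → Generates B A p → ∀ l : List ℕ, l.Nodup →
          (∀ b, b ∈ l ↔ b ∈ B ∧ (b : ℝ) ≤ 2 * (Real.log p) ^ A) →
          p.size ^ c * #{i ∈ range (F l p).length | ¬ IsPrimRoot p ((F l p).getD i 0)} ≤ (F l p).length := by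
  obtain ⟨C, -, B, hB1, hB2, s₀, hB3⟩ := Pool.Agent.H563.TW.thinUnits a (by linarith)
  refine ⟨C, B, hB1, hB2, fun A hA => ⟨fun ε hε => ?_, fun c => ?_⟩⟩
  · obtain ⟨K, hK⟩ := Pool.Agent.H563.TW.few_exceptions A (by linarith) s₀ ε hε
    refine ⟨K, fun x hx => le_trans ?_ (hK x hx)⟩
    have : #{p ∈ Icc 1 x | p.Prime ∧ ¬ Generates B A p} ≤
        #{p ∈ Icc 1 x | p.Prime ∧ ¬ (s₀ ≤ Pool.Agent.H563.TW.lev A p ∧
          Pool.Agent.H563.TW.GoodAt (Pool.Agent.H563.TW.lev A p) p)} := by
      apply card_le_card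
      intro p hp
      rw [mem_filter] at hp ⊢
      exact ⟨hp.1, hp.2.1, fun hg => hp.2.2 (hB3 A hA p hp.2.1 hg.1 hg.2)⟩
    exact_mod_cast this
  · obtain ⟨E, hE⟩ := length_le a ha C B hB2 A hA
    have hlen : ∀ (l : List ℕ) (p : ℕ), (TH415.UL.candsL (c + E + 1) l p).length = p.size ^ (c + E + 1) := by
      intro l p
      simp [TH415.UL.candsL]
    refine ⟨c + E + 1, fun l p => TH415.UL.candsL (c + E + 1) l p, poly _, hlen, fun p hp hg l hl hmem => ?_⟩
    have htop : TH415.UL.GamL p l = ⊤ := by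
      rw [eq_top_iff, ← hg]
      unfold TH415.UL.GamL
      apply Subgroup.closure_mono
      rintro u ⟨b, hb, hbA, hu⟩
      exact ⟨b, (hmem b).2 ⟨hb, hbA⟩, hu⟩
    have h1 := TH415.UL.coreL (c + E + 1) l p hp
    have h2 := hE p hp l hl hmem
    rw [hlen]
    have h3 : #{i ∈ range (p.size ^ (c + E + 1)) |
        ¬ IsPrimRoot p ((TH415.UL.candsL (c + E + 1) l p).getD i 0)} ≤ l.length * p.size := by
      refine le_trans (card_le_card ?_) h1
      intro i hi
      rw [mem_filter] at hi ⊢
      refine ⟨hi.1, fun hgn => hi.2 ?_⟩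
      rw [htop] at hgn
      exact prim_of_gen hp hgn
    calc p.size ^ c * _ ≤ p.size ^ c * (l.length * p.size) := Nat.mul_le_mul_left _ h3
      _ ≤ p.size ^ c * (p.size ^ E * p.size) :=
          Nat.mul_le_mul_left _ (Nat.mul_le_mul_right _ h2)
      _ = p.size ^ (c + E + 1) := by ring

end Pool.Agent.Results.MP_18a8a6_lc.ThinGenerators
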